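import Pool.Agent.H200C.Stm2

/-! # Project CH, CH24: a chain of curves. -/

set_option autoImplicit false

namespace Pool.Agent.Q200.CH

open Finset Pool.Agent.TH176.Nag Pool.Agent.TH603.Sur Pool.Agent.TH2.NU Pool.Agent.TH641.UM
open Pool.Agent.Y205.FW Pool.Agent.Y205.MD Pool.Agent.H200W Pool.Agent.H200P Pool.Agent.H200C

theorem GS_mono {h u : ℝ} {Q Q' : Multiset ℕ → Prop} {α β : ℝ} (hg : GS h u Q α) (hβ : β ≤ α)
    (hQ : ∀ X, Q X → Q' X) : GS h u Q' β :=
  ⟨hQ _ hg.1, fun L h1 h2 => hQ _ (hg.2 L h1 (h2.trans hβ))⟩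

theorem GE_mono {h u : ℝ} {Q Q' : Multiset ℕ → Prop} {α β : ℝ} (hg : GE h u Q α) (hβ : α ≤ β)
    (hQ : ∀ X, Q X → Q' X) : GE h u Q' β :=
  fun L h1 h2 => hQ _ (hg L h1 (hβ.trans h2))

theorem qd_HX (D : ℕ) : qd (↑(HX 0 0 0 D) : Set (ℤ × ℤ)) = Tr D := by
  ext ⟨a, b⟩
  simp only [qd, Tr, HX, Set.mem_ofPred_eq, mem_coe, mem_filter, mem_product, mem_Icc]
  constructor
  · rintro ⟨_, h1, _⟩
    omega
  · intro h1
    push_cast
    omega

theorem HX_nonneg (D : ℕ) : ∀ m ∈ (↑(HX 0 0 0 D) : Set (ℤ × ℤ)), 0 ≤ m.1 ∧ 0 ≤ m.2 := by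
  intro m hm
  simp only [HX, mem_coe, mem_filter, mem_product, mem_Icc] at hm
  exact ⟨hm.1.1.1, hm.1.2.1⟩

/-- the degree which is left -/
def dE (d : ℕ) (E : ℕ → ℕ) (y : ℕ) : ℤ := (d : ℤ) - ∑ j ∈ range y, (E j : ℤ)

theorem dE_add (d : ℕ) (E : ℕ → ℕ) (y k : ℕ) :
    dE d E (y + k) = dE d E y - ∑ j ∈ range k, (E (y + j) : ℤ) := by
  unfold dE
  rw [sum_range_add]
  ring

theorem dE_anti (d : ℕ) (E : ℕ → ℕ) {y z : ℕ} (h : y ≤ z) : dE d E z ≤ dE d E y := by
  obtain ⟨k, rfl⟩ := Nat.exists_eq_add_of_le h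
  rw [dE_add]
  have : 0 ≤ ∑ j ∈ range k, (E (y + j) : ℤ) := sum_nonneg fun j _ => by positivity
  linarith

theorem dE_const (d : ℕ) {E : ℕ → ℕ} {y e : ℕ} (k : ℕ) (h : ∀ j < k, E (y + j) = e) :
    dE d E (y + k) = dE d E y - e * k := by
  rw [dE_add, sum_congr rfl (g := fun _ => (e : ℤ)) (fun j hj => by rw [h j (mem_range.1 hj)])]
  simp
  ring

/-- the statement for the induction -/
def P (h δ : ℝ) (K W : Multiset ℕ) (E : ℕ → ℕ) (y D : ℕ) : Prop :=
  GS h (1024 * h ^ 2) (fun X => SC (E y) (up W y) (K + X) (Tr D))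
    ((1 - δ) * (((D : ℝ) - E y + 1) ^ 2 - sq K - sq (up W y))) ∧
  GE h (1024 * h ^ 2) (fun X => EC (E y) (up W y) (K + X) (Tr D))
    ((1 + δ) * ((D : ℝ) ^ 2 - sq K - sq (up W y))) ∧
  0 ≤ (D : ℝ) ^ 2 - sq K - sq (up W y)

theorem baseA (hA : Alg) (hT : Tor) {h δ : ℝ} {H0 D1 m : ℕ} {K W : Multiset ℕ} {E : ℕ → ℕ}
    (hδ : δ ≤ 1) (hH : 1 ≤ H0) (hB : BaseK h δ K D1)
    (hE : Antitone E) (h1E : ∀ k, 1 ≤ E k) (hW : ∀ w ∈ W, w ≤ m) {y D : ℕ} (hy : m ≤ y)
    (hD : D1 + 128 * E 0 * H0 ≤ D) : P h δ K W E y D := by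
  have hup : up W y = 0 := hA.up_zero W y fun w hw => (hW w hw).trans hy
  obtain ⟨b1, b2, b3⟩ := hB D (by omega)
  have hEy : E y ≤ E 0 := hE (Nat.zero_le y)
  have hED : E y ≤ D := by
    have : E 0 * 1 ≤ E 0 * H0 := Nat.mul_le_mul_left _ hH
    nlinarith
  have hEDr : (E y : ℝ) ≤ D := by exact_mod_cast hED
  have h1r : (1 : ℝ) ≤ E y := by exact_mod_cast h1E y
  have hsq : Pool.Agent.H200C.sq (0 : Multiset ℕ) = 0 := by simp [Pool.Agent.H200C.sq]
  refine ⟨?_, ?_, ?_⟩
  · rw [hup, hsq, sub_zero]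
    refine GS_mono b2 ?_ fun X hX => ?_
    · apply mul_le_mul_of_nonneg_left _ (by linarith)
      have : ((D : ℝ) - E y + 1) ^ 2 ≤ (D : ℝ) ^ 2 := by
        apply pow_le_pow_left₀ <;> linarith
      linarith
    · have := ((hT.2.1 (K + X) _ (HX_nonneg D) hX).2 (E y))
      rw [qd_HX] at this
      exact this
  · rw [hup, hsq, sub_zero]
    refine GE_mono b3 le_rfl fun X hX => ?_
    have := ((hT.1 (K + X) _ hX).2 (E y))
    rw [qd_HX] at this
    exact this
  · rw [hup, hsq, sub_zero]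
    exact b1

/-- the elements of `up` are positive -/
theorem up_pos (W : Multiset ℕ) (k : ℕ) : ∀ w ∈ up W k, 0 < w := by
  intro w hw
  unfold up at hw
  obtain ⟨a, ha, rfl⟩ := Multiset.mem_map.1 hw
  have := (Multiset.mem_filter.1 ha).2
  omega

theorem up_sum (W : Multiset ℕ) (k : ℕ) : (up W k).sum = (W.map fun w => w - k).sum := by
  unfold up
  induction W using Multiset.induction_on with
  | empty => simp
  | cons a W ih =>
    rw [Multiset.filter_cons, Multiset.map_add, Multiset.sum_add, Multiset.map_cons,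
      Multiset.sum_cons, ih]
    congr 1
    split_ifs with h1
    · simp
    · simp
      omega

theorem up_sum_anti (W : Multiset ℕ) {k l : ℕ} (h : k ≤ l) : (up W l).sum ≤ (up W k).sum := by
  rw [up_sum, up_sum]
  apply Multiset.sum_map_le_sum_map
  intro w _
  omega

theorem sum_sub (A : Multiset ℕ) (j : ℕ) :
    (A.map fun a : ℕ => (a : ℤ) - j).sum = (A.sum : ℕ) - (A.card : ℕ) * (j : ℤ) := by
  induction A using Multiset.induction_on with
  | empty => simp
  | cons a A ih =>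
    rw [Multiset.map_cons, Multiset.sum_cons, ih, Multiset.sum_cons, Multiset.card_cons]
    push_cast
    ring

/-- the rows are long enough -/
theorem rows_ok (hA : Alg) {b ρ : ℤ} {U : Multiset ℕ} {n : ℕ} (hU : ∀ w ∈ U, 0 < w)
    (h0 : 0 ≤ lm b ρ U 0) (h1 : 0 ≤ lm b ρ U n) :
    ∀ j < n, ((hi U n).map fun a : ℕ => (a : ℤ) - j).sum ≤ b - ρ * j + 1 := by
  intro j hj
  obtain ⟨e1, e2⟩ := hA.lm_lo b ρ U n hU
  rw [e1] at h0
  rw [e2] at h1
  rw [sum_sub]
  have hj1 : (0 : ℤ) ≤ j := by positivity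
  have hj2 : (j : ℤ) ≤ n := by exact_mod_cast hj.le
  have hlo : (0 : ℤ) ≤ ((lo U n).sum : ℕ) := by positivity
  have key : ∀ c s : ℤ, 0 ≤ b - s → 0 ≤ b - s - (ρ - c) * n → s - c * j ≤ b - ρ * j + 1 := by
    intro c s h2 h3
    rcases le_total (ρ - c) 0 with h4 | h4
    · nlinarith
    · nlinarith
  exact key _ _ (by linarith) h1

section step

variable {h δ : ℝ} {H0 d D1 m : ℕ} {K W : Multiset ℕ} {E : ℕ → ℕ}

theorem next_change (E : ℕ → ℕ) {y m : ℕ} (hE : Antitone E) (hy : y < m) :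
    ∃ y', y < y' ∧ y' ≤ m ∧ (E y' < E y ∨ y' = m) ∧ ∀ j, y ≤ j → j < y' → E j = E y := by
  classical
  have hex : ∃ j, y < j ∧ (E j < E y ∨ j = m) := ⟨m, hy, Or.inr rfl⟩
  refine ⟨Nat.find hex, (Nat.find_spec hex).1, Nat.find_min' hex ⟨hy, Or.inr rfl⟩,
    (Nat.find_spec hex).2, fun j h1 h2 => ?_⟩
  rcases Nat.eq_or_lt_of_le h1 with h3 | h3
  · rw [h3]
  · have := Nat.find_min hex h2
    push Not at this
    have h4 := (this h3).1
    exact le_antisymm (hE h1) h4

theorem last_start (E : ℕ → ℕ) (hE : Antitone E) (x : ℕ) :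
    ∃ z ≤ x, E z = E x ∧ (z = 0 ∨ E z < E (z - 1)) ∧ ∀ j, E j = E x → z ≤ j := by
  classical
  have hex : ∃ j, E j = E x := ⟨x, rfl⟩
  refine ⟨Nat.find hex, Nat.find_min' hex rfl, Nat.find_spec hex, ?_, fun j hj =>
    Nat.find_min' hex hj⟩
  rcases Nat.eq_zero_or_pos (Nat.find hex) with h0 | h0
  · exact Or.inl h0
  · right
    have h1 := Nat.find_min hex (m := Nat.find hex - 1) (by omega)
    have h2 := hE (show Nat.find hex - 1 ≤ Nat.find hex by omega)
    have h3 := Nat.find_spec hex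
    rw [h3] at h2 ⊢
    omega

theorem lm_add (b ρ x : ℤ) (W : Multiset ℕ) (k : ℕ) : lm (b + x) ρ W k = lm b ρ W k + x := by
  unfold lm
  ring

/-- the number of elements in a window -/
theorem card_win (W : Multiset ℕ) {y z H0 : ℕ} (h1 : z ≤ y) (h2 : y ≤ z + 128 * H0) :
    ((up W y).filter fun w => 0 < w ∧ w ≤ 128 * H0).card ≤
      (W.filter fun w => z < w ∧ w ≤ z + 256 * H0).card := by
  unfold up
  rw [Multiset.filter_map, Multiset.card_map, Multiset.filter_filter]
  apply Multiset.card_le_card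
  apply Multiset.monotone_filter_right
  intro w hw
  simp only [Function.comp_apply] at hw
  omega

/-- the lower bounds for `lm` -/
theorem lmb (hA : Alg) (hH : 1 ≤ H0) (hC : Chain H0 d D1 W E m) {y z D hh e : ℕ} (he : e = E y)
    (hhh : 1 ≤ hh) (hym : y + hh ≤ m) (hlast : E (y + hh) < e ∨ y + hh = m)
    (hcon : ∀ j, y ≤ j → j < y + hh → E j = e) (hz1 : z ≤ y) (hz2 : y ≤ z + 128 * H0)
    (hz3 : z = 0 ∨ E z < E (z - 1)) (hz4 : E z = E y)
    (hD : dE d E y - 128 * H0 * ((E 0 : ℤ) - E y) ≤ (D : ℤ)) :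
    66 * (e : ℤ) ^ 2 * H0 ≤ lm ((e : ℤ) * (D + 1 - e)) ((e : ℤ) ^ 2) (up W y) hh ∧
    2 ^ 12 * (e : ℤ) ^ 2 * H0 *
      (1 + (((up W y).filter fun w => 0 < w ∧ w ≤ 128 * H0).card : ℕ)) ≤
      lm ((e : ℤ) * (D + 1 - e)) ((e : ℤ) ^ 2) (up W y) 0 := by
  obtain ⟨hE, h1E, hW, hfin, hst⟩ := hC
  have he1 : (1 : ℤ) ≤ e := by rw [he]; exact_mod_cast h1E y
  have heE : (e : ℤ) ≤ E 0 := by rw [he]; exact_mod_cast hE (Nat.zero_le y)
  have hH' : (1 : ℤ) ≤ H0 := by exact_mod_cast hH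
  have hm0 : (D1 : ℤ) + 2 ^ 8 * E 0 * H0 ≤ dE d E m := by
    unfold dE
    have h1 : (((D1 + ∑ j ∈ range m, E j + 2 ^ 8 * E 0 * H0 : ℕ) : ℕ) : ℤ) ≤ ((d : ℕ) : ℤ) :=
      Int.ofNat_le.2 hfin
    push_cast at h1
    linarith
  have hm1 : dE d E m ≤ dE d E (y + hh) := dE_anti d E hym
  have hm2 : dE d E (y + hh) = dE d E y - e * hh :=
    dE_const d hh fun j hj => hcon _ (by omega) (by omega)
  rw [← he] at hD
  have hD1 : (0 : ℤ) ≤ D1 := by positivity
  have hee : (e : ℤ) * e ≤ e * (E 0 * H0) := by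
    apply mul_le_mul_of_nonneg_left _ (by linarith)
    calc (e : ℤ) ≤ E 0 := heE
      _ = E 0 * 1 := by ring
      _ ≤ E 0 * H0 := mul_le_mul_of_nonneg_left hH' (by linarith)
  have heeH : (e : ℤ) * e * H0 ≤ e * (E 0 * H0) := by
    rw [mul_assoc]
    exact mul_le_mul_of_nonneg_left (mul_le_mul_of_nonneg_right heE (by linarith)) (by linarith)
  constructor
  · have e1 : lm ((e : ℤ) * (D + 1 - e)) ((e : ℤ) ^ 2) (up W y) hh =
        e * (D + 1 - e) - (e : ℤ) ^ 2 * hh - ((up W (y + hh)).sum : ℕ) := by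
      unfold lm
      rw [hA.up_up]
    rw [e1]
    have h2 : (e : ℤ) * (D - e * hh) ≥ e * (dE d E (y + hh) - 128 * H0 * (E 0 - e)) := by
      apply mul_le_mul_of_nonneg_left _ (by linarith)
      rw [hm2]
      linarith
    rcases Nat.lt_or_ge (y + hh) m with h3 | h3
    · have h4 : E (y + hh) < e := by
        rcases hlast with h | h
        · exact h
        · omega
      have h4' : (E (y + hh) : ℤ) ≤ e := by exact_mod_cast h4.le
      have h5 := hst (y + hh) h3 (Or.inr (by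
        rw [hcon (y + hh - 1) (by omega) (by omega)]
        exact h4))
      obtain ⟨g, hg⟩ : ∃ g, g =
        (W.filter fun w => y + hh < w ∧ w ≤ y + hh + 256 * H0).card := ⟨_, rfl⟩
      obtain ⟨S, hS⟩ : ∃ S, S = (up W (y + hh)).sum := ⟨_, rfl⟩
      rw [← hg, ← hS] at h5
      rw [← hS]
      have h6 : (((S + E (y + hh) * ∑ j ∈ range (y + hh), E j +
        2 ^ 13 * H0 * E (y + hh) * (E 0 + E (y + hh) * g) : ℕ) : ℕ) : ℤ) ≤
          ((E (y + hh) * d : ℕ) : ℤ) := Int.ofNat_le.2 h5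
      push_cast at h6
      have h7 : (S : ℤ) + 2 ^ 13 * H0 * E (y + hh) * (E 0 + E (y + hh) * g) ≤
          E (y + hh) * dE d E (y + hh) := by
        unfold dE
        linarith
      have hE' : (1 : ℤ) ≤ E (y + hh) := by exact_mod_cast h1E _
      have h8 : (0 : ℤ) ≤ 2 ^ 13 * H0 * E (y + hh) * (E (y + hh) * g) := by positivity
      have h9 : ((e : ℤ) - E (y + hh)) * (2 ^ 8 * E 0 * H0) ≤
          ((e : ℤ) - E (y + hh)) * dE d E (y + hh) :=
        mul_le_mul_of_nonneg_left (by linarith) (by linarith)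
      have h10 : (0 : ℤ) ≤ (E (y + hh) : ℤ) * (E 0 * H0) := by positivity
      nlinarith
    · have h4 : y + hh = m := le_antisymm hym h3
      have h5 : (up W (y + hh)).sum = 0 := by
        rw [h4, hA.up_zero W m hW]
        rfl
      rw [h5]
      have h6 : (e : ℤ) * (dE d E (y + hh) - 128 * H0 * (E 0 - e)) ≥
          e * (2 ^ 7 * (E 0 * H0)) := by
        apply mul_le_mul_of_nonneg_left _ (by linarith)
        have : (0 : ℤ) ≤ 128 * H0 * e := by positivity
        linarith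
      push_cast
      nlinarith
  · have e1 : lm ((e : ℤ) * (D + 1 - e)) ((e : ℤ) ^ 2) (up W y) 0 =
        e * (D + 1 - e) - ((up W y).sum : ℕ) := by
      unfold lm
      rw [hA.up_up, add_zero]
      push_cast
      ring
    rw [e1]
    have hzm : z < m := by omega
    have h5 := hst z hzm hz3
    have hg := card_win W hz1 hz2
    have hgZ : ((((up W y).filter fun w => 0 < w ∧ w ≤ 128 * H0).card : ℕ) : ℤ) ≤
      ((W.filter fun w => z < w ∧ w ≤ z + 256 * H0).card : ℕ) := Int.ofNat_le.2 hg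
    obtain ⟨g, hgd⟩ : ∃ g, g = (W.filter fun w => z < w ∧ w ≤ z + 256 * H0).card := ⟨_, rfl⟩
    obtain ⟨g', hgd'⟩ : ∃ g', g' = ((up W y).filter fun w => 0 < w ∧ w ≤ 128 * H0).card :=
      ⟨_, rfl⟩
    rw [← hgd, ← hgd'] at hgZ
    rw [← hgd, hz4, ← he] at h5
    rw [← hgd']
    have h8' := up_sum_anti W hz1
    obtain ⟨S, hS⟩ : ∃ S, S = (up W z).sum := ⟨_, rfl⟩
    obtain ⟨S', hS'⟩ : ∃ S', S' = (up W y).sum := ⟨_, rfl⟩
    rw [← hS] at h5
    rw [← hS']
    rw [← hS, ← hS'] at h8'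
    have h6 : (((S + e * ∑ j ∈ range z, E j +
        2 ^ 13 * H0 * e * (E 0 + e * g) : ℕ) : ℕ) : ℤ) ≤ ((e * d : ℕ) : ℤ) := Int.ofNat_le.2 h5
    push_cast at h6
    have h7 : (S : ℤ) + 2 ^ 13 * H0 * e * (E 0 + e * g) ≤ e * dE d E z := by
      unfold dE
      linarith
    have h8 : (S' : ℤ) ≤ S := Int.ofNat_le.2 h8'
    have h9 : dE d E z - e * (128 * H0) ≤ dE d E y := by
      obtain ⟨t, rfl⟩ := Nat.exists_eq_add_of_le hz1
      have hcon2 : ∀ j < t, E (z + j) = e := by
        intro j hj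
        have a1 : E (z + j) ≤ E z := hE (Nat.le_add_right z j)
        have a2 : E (z + t) ≤ E (z + j) := hE (by omega)
        rw [hz4, ← he] at a1
        rw [← he] at a2
        exact le_antisymm a1 a2
      rw [dE_const d t hcon2]
      have : (t : ℤ) ≤ 128 * H0 := by
        have : t ≤ 128 * H0 := by omega
        exact_mod_cast this
      have := mul_le_mul_of_nonneg_left this (show (0 : ℤ) ≤ e by linarith)
      linarith
    have h10 : (e : ℤ) * (dE d E z - e * (128 * H0) - 128 * H0 * (E 0 - e)) ≤ e * D :=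
      mul_le_mul_of_nonneg_left (by linarith) (by linarith)
    have h11 : (e : ℤ) ^ 2 * H0 * g' ≤ (e : ℤ) ^ 2 * H0 * g :=
      mul_le_mul_of_nonneg_left hgZ (by positivity)
    have h12 : (0 : ℤ) ≤ (e : ℤ) ^ 2 * H0 * g := by positivity
    nlinarith

/-- the statement `P` in the window above the next change -/
theorem window (hA : Alg) (hT : Tor) (hδ1 : δ ≤ 1) (hH : 1 ≤ H0) (hB : BaseK h δ K D1)
    (hC : Chain H0 d D1 W E m) {N y D hh e : ℕ} (he : e = E y)
    (ih : ∀ y' D' : ℕ, m ≤ y' + N → y' < m → (∃ z, z ≤ y' ∧ y' ≤ z + 128 * H0 ∧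
      (z = 0 ∨ E z < E (z - 1)) ∧ E z = E y') →
      dE d E y' - 128 * H0 * ((E 0 : ℤ) - E y') ≤ (D' : ℤ) → P h δ K W E y' D')
    (hN : m ≤ y + (N + 1)) (hhh : 1 ≤ hh) (hym : y + hh ≤ m)
    (hlast : E (y + hh) < e ∨ y + hh = m) (hcon : ∀ j, y ≤ j → j < y + hh → E j = e)
    (hD : dE d E y - 128 * H0 * ((E 0 : ℤ) - E y) ≤ (D : ℤ)) :
    ∀ k, hh ≤ k → k ≤ hh + 128 * H0 →
      (D1 + 128 * E 0 * H0 + e * k ≤ D) ∧ P h δ K W E (y + k) (D - e * k) := by
  intro k hk1 hk2
  obtain ⟨θ, rfl⟩ := Nat.exists_eq_add_of_le hk1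
  have hθ : θ ≤ 128 * H0 := by omega
  have hE := hC.1
  have h1E := hC.2.1
  have hW := hC.2.2.1
  have hfin := hC.2.2.2.1
  have he1 : (1 : ℤ) ≤ e := by rw [he]; exact_mod_cast h1E y
  have heE : (e : ℤ) ≤ E 0 := by rw [he]; exact_mod_cast hE (Nat.zero_le y)
  have hH' : (1 : ℤ) ≤ H0 := by exact_mod_cast hH
  have hm0 : (D1 : ℤ) + 2 ^ 8 * E 0 * H0 ≤ dE d E m := by
    unfold dE
    have h1 : (((D1 + ∑ j ∈ range m, E j + 2 ^ 8 * E 0 * H0 : ℕ) : ℕ) : ℤ) ≤ ((d : ℕ) : ℤ) :=
      Int.ofNat_le.2 hfin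
    push_cast at h1
    linarith
  have hm1 : dE d E m ≤ dE d E (y + hh) := dE_anti d E hym
  have hm2 : dE d E (y + hh) = dE d E y - e * hh :=
    dE_const d hh fun j hj => hcon _ (by omega) (by omega)
  rw [← he] at hD
  have hθ' : (e : ℤ) * θ ≤ e * (128 * H0) := by
    apply mul_le_mul_of_nonneg_left _ (by linarith)
    exact_mod_cast hθ
  have hsub : D1 + 128 * E 0 * H0 + e * (hh + θ) ≤ D := by
    have : ((D1 : ℤ) + 128 * E 0 * H0 + e * (hh + θ)) ≤ D := by nlinarith
    exact_mod_cast this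
  refine ⟨hsub, ?_⟩
  rcases Nat.lt_or_ge (y + (hh + θ)) m with h3 | h3
  · have h4 : E (y + hh) < e := by
      rcases hlast with h | h
      · exact h
      · omega
    obtain ⟨z, hz1, hz2, hz3, _⟩ := last_start E hE (y + (hh + θ))
    have hz5 : y + hh ≤ z := by
      by_contra hcon'
      push Not at hcon'
      have a1 : E (y + (hh + θ)) ≤ E (y + hh) := hE (by omega)
      rcases Nat.lt_or_ge z y with h5 | h5
      · have := hE h5.le
        omega
      · have := hcon z h5 hcon'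
        omega
    refine ih _ _ (by omega) h3 ⟨z, hz1, by omega, hz3, hz2⟩ ?_
    have h6 : dE d E (y + (hh + θ)) ≤ dE d E (y + hh) - θ * E (y + (hh + θ)) := by
      rw [← add_assoc, dE_add]
      have : (θ : ℤ) * E (y + hh + θ) ≤ ∑ j ∈ range θ, (E (y + hh + j) : ℤ) := by
        have h7 : ∑ _j ∈ range θ, (E (y + hh + θ) : ℤ) ≤ ∑ j ∈ range θ, (E (y + hh + j) : ℤ) := by
          apply sum_le_sum
          intro j hj
          have := mem_range.1 hj
          exact_mod_cast hE (show y + hh + j ≤ y + hh + θ by omega)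
        rw [sum_const, card_range, nsmul_eq_mul] at h7
        exact h7
      linarith
    have hcast : (((D - e * (hh + θ) : ℕ) : ℕ) : ℤ) = (D : ℤ) - e * (hh + θ) := by
      rw [Nat.cast_sub (by omega)]
      push_cast
      ring
    rw [hcast]
    have h8 : (E (y + (hh + θ)) : ℤ) ≤ e := by
      have a1 : E (y + (hh + θ)) ≤ E (y + hh) := hE (by omega)
      exact_mod_cast (a1.trans h4.le)
    have h9 : ((e : ℤ) - E (y + (hh + θ))) * θ ≤ (e - E (y + (hh + θ))) * (128 * H0) := by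
      apply mul_le_mul_of_nonneg_left _ (by linarith)
      exact_mod_cast hθ
    nlinarith
  · exact baseA hA hT hδ1 hH hB hE h1E hW h3 (by omega)

/-- the step of the induction -/
theorem stepP (hTS : TowerS) (hTE : TowerE) (hA : Alg) (hR : Rule) (hT : Tor) (h1 : 1 ≤ h)
    (hH : 1024 * h ≤ H0) (hδ : 4 ≤ δ * H0) (hδ1 : δ ≤ 1) (hB : BaseK h δ K D1)
    (hC : Chain H0 d D1 W E m) : ∀ N y D : ℕ, m ≤ y + N → y < m → (∃ z, z ≤ y ∧
      y ≤ z + 128 * H0 ∧ (z = 0 ∨ E z < E (z - 1)) ∧ E z = E y) →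
      dE d E y - 128 * H0 * ((E 0 : ℤ) - E y) ≤ (D : ℤ) → P h δ K W E y D := by
  intro N
  induction N with
  | zero => intro y D h2 h3; omega
  | succ N ih =>
    intro y D hN hy ⟨z, hz1, hz2, hz3, hz4⟩ hD
    have hH1 : 1 ≤ H0 := by
      have : (1 : ℝ) ≤ H0 := by linarith
      exact_mod_cast this
    have hE := hC.1
    have h1E := hC.2.1
    obtain ⟨y', hy1, hy2, hy3, hy4⟩ := next_change E hE hy
    obtain ⟨hh, rfl⟩ := Nat.exists_eq_add_of_le hy1.le
    obtain ⟨e, he⟩ : ∃ e, e = E y := ⟨_, rfl⟩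
    have hhh : 1 ≤ hh := by omega
    rw [← he] at hy3
    have hcon : ∀ j, y ≤ j → j < y + hh → E j = e := fun j a b => (hy4 j a b).trans he.symm
    have hwin := window hA hT hδ1 hH1 hB hC he ih hN hhh hy2 hy3 hcon hD
    obtain ⟨L1, L2⟩ := lmb hA hH1 hC he hhh hy2 hy3 hcon hz1 hz2 hz3 hz4 hD
    have he1 : 1 ≤ e := by rw [he]; exact h1E y
    have he1' : (1 : ℤ) ≤ e := by exact_mod_cast he1
    have hDk : ∀ k, k ≤ hh + 128 * H0 → e * k ≤ D := by
      intro k hk
      have h2 := (hwin (hh + 128 * H0) (by omega) le_rfl).1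
      have h3 : e * k ≤ e * (hh + 128 * H0) := Nat.mul_le_mul_left _ hk
      omega
    have hcast : ∀ k, k ≤ hh + 128 * H0 → (((D - e * k : ℕ) : ℕ) : ℝ) = (D : ℝ) - e * k := by
      intro k hk
      rw [Nat.cast_sub (hDk k hk)]
      push_cast
      ring
    have hcastZ : ∀ k, k ≤ hh + 128 * H0 → (((D - e * k : ℕ) : ℕ) : ℤ) = (D : ℤ) - e * k := by
      intro k hk
      rw [Nat.cast_sub (hDk k hk)]
      push_cast
      ring
    have hu : 1024 * h ^ 2 ≤ (H0 : ℝ) ^ 2 := by nlinarith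
    have hu0 : 0 ≤ 1024 * h ^ 2 := by positivity
    have h5 : 5 * h ≤ H0 := by linarith
    have hρ : (1 : ℤ) ≤ (e : ℤ) ^ 2 := by nlinarith
    have hpos : ∀ k, ∀ w ∈ up W (y + k), 0 < w := fun k => up_pos W (y + k)
    -- the identity for the areas
    have hid : ∀ (c : ℝ) (cz : ℤ), c = cz → ∀ k,
        (((D : ℝ) + c - e * k) ^ 2 - H200C.sq K - H200C.sq (up W (y + k))) -
          (((D : ℝ) + c - e * ((k + 1 : ℕ) : ℝ)) ^ 2 - H200C.sq K - H200C.sq (up W (y + (k + 1)))) =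
        (lm ((e : ℤ) * (D + cz)) ((e : ℤ) ^ 2) (up W y) k : ℝ) +
          (lm ((e : ℤ) * (D + cz)) ((e : ℤ) ^ 2) (up W y) (k + 1) : ℝ) := by
      intro c cz hc k
      have h2 := hA.sq_succ W (y + k)
      unfold lm
      rw [hA.up_up, hA.up_up]
      rw [show y + (k + 1) = y + k + 1 by ring]
      obtain ⟨a, ha⟩ : ∃ a, a = (up W (y + k)).sum := ⟨_, rfl⟩
      obtain ⟨b, hb⟩ : ∃ b, b = (up W (y + k + 1)).sum := ⟨_, rfl⟩
      rw [← ha, ← hb] at h2 ⊢
      push_cast
      rw [hc]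
      linarith
    refine ⟨?_, ?_⟩
    · -- independence
      have hS := @hTS h (1024 * h ^ 2) δ H0 hh ((e : ℤ) * (D + (1 - e))) ((e : ℤ) ^ 2) (up W y)
        (fun k => ((D : ℝ) + (1 - e) - e * k) ^ 2 - H200C.sq K - H200C.sq (up W (y + k)))
        (fun k X => SC e (up W (y + k)) (K + X) (Tr (D - e * k))) h1 h5 hu0 hu hδ hδ1 hρ
        (fun k _ => hid (1 - e) (1 - e) (by push_cast; ring) k)
        (fun k hk1 hk2 => by
          obtain ⟨w1, w2, _, _⟩ := hwin k hk1 hk2
          have hle : E (y + k) ≤ e := by rw [he]; exact hE (Nat.le_add_right y k)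
          refine GS_mono w2 ?_ fun X hX => (hR.2.2 _ _ _ _ _ hle).2 hX
          rw [hcast k hk2]
          apply mul_le_mul_of_nonneg_left _ (by linarith)
          have hle' : (E (y + k) : ℝ) ≤ e := by exact_mod_cast hle
          have h6 : (e : ℝ) + e * k ≤ D := by
            have h7 : e * 1 ≤ E 0 * H0 := Nat.mul_le_mul (by rw [he]; exact hE (Nat.zero_le y)) hH1
            have h8 : e + e * k ≤ D := by nlinarith
            exact_mod_cast h8
          have h9 : ((D : ℝ) + (1 - e) - e * k) ^ 2 ≤ ((D : ℝ) - e * k - E (y + k) + 1) ^ 2 := by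
            apply pow_le_pow_left₀
            · linarith
            · linarith
          linarith)
        (by have := L1; rw [show (D : ℤ) + (1 - e) = D + 1 - e by ring]; exact this)
        (by have := L2; rw [show (D : ℤ) + (1 - e) = D + 1 - e by ring]; exact this)
        (fun k n hkn hl1 hl2 M1 M2 hB1 hQ => by
          have hk : k ≤ hh + 128 * H0 := by omega
          show SC e (up W (y + k)) (K + (M1 + M2)) (Tr (D - e * k))
          rw [show K + (M1 + M2) = M1 + (K + M2) by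
            rw [← add_assoc, add_comm K, add_assoc]]
          have hen : e * n ≤ D - e * k := by
            have := hDk (k + n) hkn
            rw [Nat.mul_add] at this
            omega
          have hb : (e : ℤ) * (D + (1 - e)) - (e : ℤ) ^ 2 * k =
              (e : ℤ) * (((D - e * k : ℕ) : ℤ) + 1 - e) := by
            rw [hcastZ k hk]
            ring
          have hu2 : up (up W y) k = up W (y + k) := hA.up_up W y k
          rw [hu2, hb] at hB1
          have hl1' : 0 ≤ lm ((e : ℤ) * (((D - e * k : ℕ) : ℤ) + 1 - e)) ((e : ℤ) ^ 2)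
              (up W (y + k)) 0 := by
            rw [← hb, ← hu2, hA.lm_shift, add_zero]
            exact hl1
          have hl2' : 0 ≤ lm ((e : ℤ) * (((D - e * k : ℕ) : ℤ) + 1 - e)) ((e : ℤ) ^ 2)
              (up W (y + k)) n := by
            rw [← hb, ← hu2, hA.lm_shift]
            exact hl2
          refine hR.2.1 e (D - e * k) n _ M1 (K + M2) he1 hen ?_ ?_ ?_
          · have := rows_ok hA (hpos k) hl1' hl2'
            push_cast
            exact this
          · push_cast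
            push_cast at hB1
            exact hB1
          · rw [hA.up_up, add_assoc, Nat.sub_sub, ← Nat.mul_add]
            exact hQ)
      rw [← he]
      refine GS_mono hS (le_of_eq ?_) fun X hX => ?_
      · rw [add_zero]
        push_cast
        ring_nf
      · have hX' : SC e (up W (y + 0)) (K + X) (Tr (D - e * 0)) := hX
        rw [add_zero, Nat.mul_zero, Nat.sub_zero] at hX'
        exact hX'
    · -- emptiness
      have hL : ∀ k, lm ((e : ℤ) * (D + 0)) ((e : ℤ) ^ 2) (up W y) k =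
          lm ((e : ℤ) * (D + 1 - e)) ((e : ℤ) ^ 2) (up W y) k + e * (e - 1) := by
        intro k
        rw [← lm_add]
        congr 1
        ring
      have hee : (0 : ℤ) ≤ e * (e - 1) := by nlinarith
      have hS := @hTE h (1024 * h ^ 2) δ H0 hh ((e : ℤ) * (D + 0)) ((e : ℤ) ^ 2) (up W y)
        (fun k => ((D : ℝ) + 0 - e * k) ^ 2 - H200C.sq K - H200C.sq (up W (y + k)))
        (fun k X => EC e (up W (y + k)) (K + X) (Tr (D - e * k))) h1 h5 hu0 hu hδ hδ1 hρ
        (fun k _ => hid 0 0 (by push_cast; ring) k)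
        (fun k hk1 hk2 => by
          obtain ⟨w1, _, w3, w4⟩ := hwin k hk1 hk2
          have hle : E (y + k) ≤ e := by rw [he]; exact hE (Nat.le_add_right y k)
          rw [hcast k hk2] at w3 w4
          refine ⟨?_, GE_mono w3 (le_of_eq (by rw [add_zero])) fun X hX =>
            (hR.2.2 _ _ _ _ _ hle).1 hX⟩
          rw [add_zero]
          exact w4)
        (by rw [hL]; linarith) (by rw [hL]; linarith)
        (fun k n hkn hl1 hl2 M1 M2 hB1 hQ => by
          have hk : k ≤ hh + 128 * H0 := by omega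
          show EC e (up W (y + k)) (K + (M1 + M2)) (Tr (D - e * k))
          rw [show K + (M1 + M2) = M1 + (K + M2) by
            rw [← add_assoc, add_comm K, add_assoc]]
          have hen : e * n ≤ D - e * k := by
            have := hDk (k + n) hkn
            rw [Nat.mul_add] at this
            omega
          have hb : (e : ℤ) * (D + 0) - (e : ℤ) ^ 2 * k = (((e * (D - e * k) : ℕ) : ℕ) : ℤ) := by
            rw [Nat.cast_mul, hcastZ k hk]
            ring
          have hu2 : up (up W y) k = up W (y + k) := hA.up_up W y k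
          rw [hu2, hb] at hB1
          refine hR.1 e (D - e * k) n _ M1 (K + M2) he1 hen ?_ ?_
          · push_cast
            push_cast at hB1
            exact hB1
          · rw [hA.up_up, add_assoc, Nat.sub_sub, ← Nat.mul_add]
            exact hQ)
      obtain ⟨s1, s2⟩ := hS
      have e0 : ((D : ℝ) + 0 - e * ((0 : ℕ) : ℝ)) ^ 2 - H200C.sq K - H200C.sq (up W (y + 0)) =
          (D : ℝ) ^ 2 - H200C.sq K - H200C.sq (up W y) := by
        rw [add_zero]
        push_cast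
        ring_nf
      simp only [e0] at s1 s2
      rw [← he]
      refine ⟨GE_mono s2 le_rfl fun X hX => ?_, s1⟩
      have hX' : EC e (up W (y + 0)) (K + X) (Tr (D - e * 0)) := hX
      rw [add_zero, Nat.mul_zero, Nat.sub_zero] at hX'
      exact hX'

end step

theorem up_zero_eq (W : Multiset ℕ) : up W 0 = W.filter fun a => 0 < a := by
  unfold up
  simp

theorem ms_fam (W : Multiset ℕ) : ms (fam W) = W := ms_toList W

theorem condM_up0 (W : Multiset ℕ) : TH2.NU.condM (up W 0) = TH2.NU.condM W := by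
  rw [up_zero_eq]
  unfold TH2.NU.condM
  induction W using Multiset.induction_on with
  | empty => simp
  | cons a W ih =>
    rw [Multiset.filter_cons, Multiset.map_add, Multiset.sum_add, Multiset.map_cons,
      Multiset.sum_cons, ih]
    congr 1
    split_ifs with h1
    · simp
    · have : a = 0 := by omega
      subst this
      simp

theorem sq_up0 (W : Multiset ℕ) : H200C.sq (up W 0) = H200C.sq W := by
  rw [up_zero_eq]
  unfold H200C.sq
  induction W using Multiset.induction_on with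
  | empty => simp
  | cons a W ih =>
    rw [Multiset.filter_cons, Multiset.map_add, Multiset.sum_add, Multiset.map_cons,
      Multiset.sum_cons, ih]
    congr 1
    split_ifs with h1
    · simp
    · have : a = 0 := by omega
      subst this
      simp

theorem ec_up0 (hM : Ms) {e : ℕ} {W M : Multiset ℕ} {S : Set (ℕ × ℕ)} (h : EC e (up W 0) M S) :
    EC e W M S := by
  refine (hM ?_ rfl).2 e h
  rw [ms_fam, ms_fam, up_zero_eq, Multiset.filter_filter]
  congr 1
  ext a
  simp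

theorem sc_up0 (hM : Ms) {e : ℕ} {W M : Multiset ℕ} {S : Set (ℕ × ℕ)} (h : SC e (up W 0) M S) :
    SC e W M S := by
  obtain ⟨T, h1, h2, h3⟩ := h
  exact ⟨T, h1, by rw [h2, condM_up0], ec_up0 hM h3⟩

/-- CH24 -/
theorem multi : S_Multi := by
  intro hTS hTE hA hR hT hM h δ H0 d D1 m K W E h1 hH hδ hδ1 hB hC
  have hH1 : 1 ≤ H0 := by
    have : (1 : ℝ) ≤ H0 := by linarith
    exact_mod_cast this
  have key : P h δ K W E 0 d := by
    rcases Nat.eq_zero_or_pos m with h0 | h0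
    · obtain ⟨c1, c2, c3, c4, _⟩ := hC
      refine baseA hA hT hδ1 hH1 hB c1 c2 c3 (by omega) ?_
      rw [h0] at c4
      have h2 : 128 * E 0 * H0 ≤ 2 ^ 8 * E 0 * H0 := by
        apply Nat.mul_le_mul_right
        omega
      rw [range_zero, sum_empty, add_zero] at c4
      exact (Nat.add_le_add_left h2 D1).trans c4
    · refine stepP hTS hTE hA hR hT h1 hH hδ hδ1 hB hC m 0 d (by omega) h0
        ⟨0, le_rfl, by omega, Or.inl rfl, rfl⟩ ?_
      unfold dE
      simp
  obtain ⟨k1, k2, _⟩ := key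
  rw [sq_up0] at k1 k2
  exact ⟨GS_mono k1 le_rfl fun X hX => sc_up0 hM hX, GE_mono k2 le_rfl fun X hX => ec_up0 hM hX⟩

end Pool.Agent.Q200.CH
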